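import Pool.Agent.X103.SelfInv

/-!
# MP_0f7e3c_al, Q1 and Q2: the isotropic construction does not give all HN self-inverting `P`

In `n = 5` variables put `x = z₁ + i z₂` and `P = (x - x³) z₃ + i (x + x³) z₄ + 2 x² z₅`.
Then `P` is a Hessian nilpotent self-inverting polynomial lying in no algebra `𝒜_Ξ`.
-/

set_option autoImplicit false

namespace Pool.Agent.Results.MP_0f7e3c_al.NotIsotropic

open Pool.Agent.X103.SelfInv MvPowerSeries

/-- The imaginary unit as a constant series. -/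
noncomputable def io : PS 5 := C Complex.I

lemma io_sq : io * io = -1 := by
  rw [io, ← map_mul, Complex.I_mul_I, map_neg, map_one]

noncomputable def x : PS 5 := X 0 + io * X 1

/-- The example, as a polynomial. -/
noncomputable def PP : MvPolynomial (Fin 5) ℂ :=
  let x : MvPolynomial (Fin 5) ℂ := MvPolynomial.X 0 + MvPolynomial.C Complex.I * MvPolynomial.X 1
  (x - x ^ 3) * MvPolynomial.X 2 + MvPolynomial.C Complex.I * (x + x ^ 3) * MvPolynomial.X 3
    + 2 * x ^ 2 * MvPolynomial.X 4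

noncomputable def P : PS 5 := (x - x ^ 3) * X 2 + io * (x + x ^ 3) * X 3 + 2 * x ^ 2 * X 4

lemma PP_coe : (PP : PS 5) = P := by
  have h2 : ((2 : MvPolynomial (Fin 5) ℂ) : PS 5) = 2 := by
    have : (2 : MvPolynomial (Fin 5) ℂ) = MvPolynomial.C 2 := (map_ofNat MvPolynomial.C 2).symm
    rw [this, MvPolynomial.coe_C]; exact map_ofNat C 2
  simp only [PP, P, x, io, MvPolynomial.coe_add, MvPolynomial.coe_mul, MvPolynomial.coe_X,
    MvPolynomial.coe_C, MvPolynomial.coe_pow, sub_eq_add_neg, h2]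
  have h3 : ∀ p : MvPolynomial (Fin 5) ℂ, ((-p : MvPolynomial (Fin 5) ℂ) : PS 5) = -(p : PS 5) := by
    intro p
    have : ((-p : MvPolynomial (Fin 5) ℂ) : PS 5) + (p : PS 5) = 0 := by
      rw [← MvPolynomial.coe_add, neg_add_cancel, MvPolynomial.coe_zero]
    exact eq_neg_of_add_eq_zero_left this
  simp only [h3, MvPolynomial.coe_add, MvPolynomial.coe_mul, MvPolynomial.coe_X,
    MvPolynomial.coe_C, MvPolynomial.coe_pow]

lemma d_io (i : Fin 5) : pderiv ℂ i io = 0 := pderiv_C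
lemma d_two (i : Fin 5) : pderiv ℂ i (2 : PS 5) = 0 := by
  have : (2 : PS 5) = C 2 := (map_ofNat C 2).symm
  rw [this, pderiv_C]
lemma d_three (i : Fin 5) : pderiv ℂ i (3 : PS 5) = 0 := by
  have : (3 : PS 5) = C 3 := (map_ofNat C 3).symm
  rw [this, pderiv_C]
lemma d_four (i : Fin 5) : pderiv ℂ i (4 : PS 5) = 0 := by
  have : (4 : PS 5) = C 4 := (map_ofNat C 4).symm
  rw [this, pderiv_C]

/-- The isotropic vector `(1, i, 0, 0, 0)`. -/
noncomputable def v : Fin 5 → PS 5 := ![1, io, 0, 0, 0]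

lemma d_x (i : Fin 5) : pderiv ℂ i x = v i := by
  fin_cases i <;> simp [x, v, d_io]

lemma d_X (i j : Fin 5) : pderiv ℂ i (X j : PS 5) = if i = j then 1 else 0 := by
  by_cases h : i = j
  · subst h; simp
  · rw [pderiv_X_of_ne (Ne.symm h), if_neg h]

/-- derivative in `x` -/
noncomputable def px : PS 5 :=
  (1 - 3 * x ^ 2) * X 2 + io * (1 + 3 * x ^ 2) * X 3 + 4 * x * X 4

/-- second derivative in `x` -/
noncomputable def pxx : PS 5 := -6 * x * X 2 + io * (6 * x) * X 3 + 4 * X 4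

noncomputable def q : Fin 5 → PS 5 := ![0, 0, x - x ^ 3, io * (x + x ^ 3), 2 * x ^ 2]

noncomputable def w : Fin 5 → PS 5 := ![0, 0, 1 - 3 * x ^ 2, io * (1 + 3 * x ^ 2), 4 * x]

lemma d_P (i : Fin 5) : pderiv ℂ i P = px * v i + q i := by
  simp only [P, map_add, map_sub, Derivation.leibniz, Derivation.leibniz_pow, d_x, d_io, d_two, d_X,
    smul_eq_mul, nsmul_eq_mul]
  fin_cases i <;> simp [v, q, px] <;> ring

lemma d_px (i : Fin 5) : pderiv ℂ i px = pxx * v i + w i := by
  simp only [px, map_add, map_sub, Derivation.leibniz, Derivation.leibniz_pow, d_x, d_io,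
    d_X, d_three, d_four, smul_eq_mul, nsmul_eq_mul, Derivation.map_one_eq_zero]
  fin_cases i <;> simp [v, w, pxx] <;> ring

lemma d_v (i j : Fin 5) : pderiv ℂ i (v j) = 0 := by
  fin_cases j <;> simp [v, d_io]

lemma d_q (i j : Fin 5) : pderiv ℂ i (q j) = v i * w j := by
  fin_cases j <;>
    simp [q, w, map_add, map_sub, Derivation.leibniz, Derivation.leibniz_pow, d_x, d_io, d_two] <;>
    ring

lemma hes_P (i j : Fin 5) : Hes P i j = pxx * v i * v j + v i * w j + w i * v j := by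
  show pderiv ℂ i (pderiv ℂ j P) = _
  rw [d_P, map_add, Derivation.leibniz, d_px, d_v, d_q]
  simp only [smul_eq_mul]
  ring

lemma vv : v ⬝ᵥ v = 0 := by
  simp [dotProduct, v, Fin.sum_univ_succ, io_sq]

lemma vw : v ⬝ᵥ w = 0 := by
  simp [dotProduct, v, w, Fin.sum_univ_succ]

lemma P_HN : HN P := ⟨3, nilpotent_of_form _ pxx v w hes_P vv vw⟩

lemma P_ord : 2 ≤ P.order := by
  have hX : ∀ i, (1 : ℕ∞) ≤ (X i : PS 5).order := fun i => by
    rw [one_le_order_iff_constCoeff_eq_zero]; simp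
  have hx : (1 : ℕ∞) ≤ x.order := by
    rw [one_le_order_iff_constCoeff_eq_zero]; simp [x]
  have hmul : ∀ f g : PS 5, (1 : ℕ∞) ≤ f.order → (1 : ℕ∞) ≤ g.order → 2 ≤ (f * g).order := by
    intro f g hf hg
    refine le_trans ?_ le_order_mul
    calc (2 : ℕ∞) = 1 + 1 := by norm_num
      _ ≤ _ := add_le_add hf hg
  have hadd : ∀ f g : PS 5, (2 : ℕ∞) ≤ f.order → (2 : ℕ∞) ≤ g.order → 2 ≤ (f + g).order :=
    fun f g hf hg => le_trans (le_min hf hg) min_order_le_add
  refine hadd _ _ (hadd _ _ (hmul _ _ ?_ (hX _)) (hmul _ _ ?_ (hX _))) (hmul _ _ ?_ (hX _))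
  all_goals rw [one_le_order_iff_constCoeff_eq_zero]; simp [x, io]

lemma inv_grad (c : ℂ) (j : Fin 5) :
    subst (fun i => X i + c • pderiv ℂ i P) (pderiv ℂ j P) = pderiv ℂ j P := by
  have hs : HasSubst (fun i => (X i : PS 5) + c • pderiv ℂ i P) := by
    apply hasSubst_of_constantCoeff_zero
    intro i
    have h1 : constantCoeff (pderiv ℂ i P) = 0 := by
      rw [d_P]
      fin_cases i <;> simp [v, q, px, x, io]
    rw [map_add, constantCoeff_X, zero_add, smul_eq_C_mul, map_mul, h1, mul_zero]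
  set φ := substAlgHom (R := ℂ) hs with hφ
  have hX : ∀ i, φ (X i) = X i + C c * (px * v i + q i) := by
    intro i
    rw [hφ, substAlgHom_X, d_P, smul_eq_C_mul]
  have hio : φ io = io := by
    have : io = algebraMap ℂ (PS 5) Complex.I := rfl
    rw [this, AlgHom.commutes]
  rw [← substAlgHom_apply hs, ← hφ]
  have h2 : φ 2 = 2 := map_ofNat φ 2
  have h3 : φ 3 = 3 := map_ofNat φ 3
  have h4 : φ 4 = 4 := map_ofNat φ 4
  have hx : φ x = x := by
    rw [x, map_add, map_mul, hX, hX, hio]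
    simp only [v, q, Matrix.cons_val_zero, Matrix.cons_val_one]
    linear_combination (C c * px) * io_sq
  have hX2 : φ (X 2) = X 2 + C c * (x - x ^ 3) := by rw [hX]; simp [v, q]
  have hX3 : φ (X 3) = X 3 + C c * (io * (x + x ^ 3)) := by rw [hX]; simp [v, q]
  have hX4 : φ (X 4) = X 4 + C c * (2 * x ^ 2) := by rw [hX]; simp [v, q]
  have hpx : φ px = px := by
    rw [px]
    simp only [map_add, map_mul, map_sub, map_pow, map_one, hx, hio, h3, h4, hX2, hX3, hX4]
    linear_combination (C c * (1 + 3 * x ^ 2) * (x + x ^ 3)) * io_sq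
  have hv : ∀ i, φ (v i) = v i := by
    intro i; fin_cases i <;> simp [v, hio]
  have hq : ∀ i, φ (q i) = q i := by
    intro i; fin_cases i <;> simp [q, hio, hx, h2]
  rw [d_P, map_add, map_mul, hpx, hv, hq]

lemma P_self : SelfInverting P := by
  refine ⟨⟨P_ord, ?_⟩, isInversionPair_of_invariant P_ord inv_grad⟩
  obtain ⟨k, hk⟩ := P_HN
  refine ⟨k, ?_⟩
  have := congrArg (fun M : Matrix (Fin 5) (Fin 5) (PS 5) =>
    M.map (constantCoeff (σ := Fin 5) (R := ℂ))) hk
  simp only [Matrix.map_pow] at this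
  rw [this]
  ext i j
  simp

/-- The only vectors `β` with `D_β P = 0` are multiples of `(1, i, 0, 0, 0)`; only the vanishing
of the coordinates `2, 3, 4` is needed. -/
lemma D_P_zero {β : Fin 5 → ℂ} (h : D β P = 0) : β 2 = 0 ∧ β 3 = 0 ∧ β 4 = 0 := by
  have hs : HasSubst (![X 0, 0, 0, 0, 0] : Fin 5 → PS 5) := by
    apply hasSubst_of_constantCoeff_zero
    intro i
    fin_cases i <;> simp
  set ψ := substAlgHom (R := ℂ) hs with hψ
  have hX : ∀ i, ψ (X i) = (![X 0, 0, 0, 0, 0] : Fin 5 → PS 5) i := by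
    intro i
    rw [hψ, substAlgHom_X]
  have hio : ψ io = io := by
    have : io = algebraMap ℂ (PS 5) Complex.I := rfl
    rw [this, AlgHom.commutes]
  have hx : ψ x = X 0 := by
    rw [x, map_add, map_mul, hX, hX]; simp
  have h2 : ψ 2 = 2 := map_ofNat ψ 2
  have hpx : ψ px = 0 := by
    rw [px]
    simp only [map_add, map_mul, hX]
    simp
  have E : ψ (D β P) = 0 := by rw [h, map_zero]
  have E2 : C (β 2) * (X 0 - X 0 ^ 3) + C (β 3) * (C Complex.I * (X 0 + X 0 ^ 3))
      + C (β 4) * (C 2 * X 0 ^ 2) = (0 : PS 5) := by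
    rw [← E, D]
    have hsum : ∀ i, β i • pderiv ℂ i P = C (β i) * (px * v i + q i) := by
      intro i; rw [d_P, smul_eq_C_mul]
    have hC : ∀ r : ℂ, ψ (C r) = C r := fun r => by
      have : (C r : PS 5) = algebraMap ℂ (PS 5) r := rfl
      rw [this, AlgHom.commutes]
    have hC2 : (C 2 : PS 5) = 2 := map_ofNat C 2
    simp only [hsum, Fin.sum_univ_five, map_add, map_mul, hpx, hC]
    simp only [v, q, Matrix.cons_val, map_mul, map_sub, map_add, map_pow, hx, hio, h2, map_zero,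
      hC2]
    simp only [io]
    ring
  have c1 := congrArg (coeff (Finsupp.single 0 1)) E2
  have c2 := congrArg (coeff (Finsupp.single 0 2)) E2
  have c3 := congrArg (coeff (Finsupp.single 0 3)) E2
  have e : ∀ a b : ℕ, (Finsupp.single (0 : Fin 5) a = Finsupp.single 0 b) ↔ a = b :=
    fun a b => (Finsupp.single_injective (0 : Fin 5)).eq_iff
  simp only [map_add, map_sub, coeff_C_mul, coeff_X_pow, coeff_X, map_zero, e] at c1 c2 c3
  norm_num at c1 c2 c3
  have hI : Complex.I ≠ 0 := Complex.I_ne_zero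
  have h3 : β 3 * Complex.I = 0 := by linear_combination (c1 + c3) / 2
  have h2' : β 2 = 0 := by linear_combination (c1 - c3) / 2
  exact ⟨h2', (mul_eq_zero.1 h3).resolve_right hI, c2⟩

/-- **Main theorem.**  There is a polynomial in five variables which is Hessian nilpotent and
self-inverting, but which lies in no `𝒜_Ξ`, `Ξ` a nonempty set of pairwise orthogonal (isotropic)
vectors. -/
theorem result : ∃ P : MvPolynomial (Fin 5) ℂ, HN (P : PS 5) ∧ SelfInverting (P : PS 5) ∧
    ∀ Ξ : Set (Fin 5 → ℂ), Ξ.Nonempty → PairwiseOrthogonal Ξ → (P : PS 5) ∉ AXi Ξ := by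
  refine ⟨PP, ?_⟩
  rw [PP_coe]
  refine ⟨P_HN, P_self, fun Ξ _ hΞ hmem => ?_⟩
  have h1 : ∀ α ∈ Ξ, α 2 = 0 := fun α hα => (D_P_zero (D_AXi (fun β hβ => hΞ α hα β hβ) hmem)).1
  have h2 : D (Pi.single 2 1) P = 0 := D_AXi (fun α hα => by
    rw [single_one_dotProduct]; exact h1 α hα) hmem
  have h3 := (D_P_zero h2).1
  simp at h3

end Pool.Agent.Results.MP_0f7e3c_al.NotIsotropic
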